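import Mathlib

/-!
Extremal `m`-zero free sequences over `ℤ/qℤ`, `q = p ^ r`, `m = p ^ s`: the sequences of the
maximal length `m q - 1` are constant.

Idea of the proof.  Let `x = 1 + t` be a generator of the group algebra over `𝔽_p` of a cyclic
`p`-group (here: polynomials in `t`, with a functional `lam` which maps `x ^ n` to the indicator of
`p ^ R ∣ n`).  The alternating sum over the subsets `Y` of an index set of `x ^ e_m(Y)` is a sum
over the coverings of the index set (`cover_sum`, `main_identity`), in which for weight reasons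
only the minimal coverings count.
* For index sets with `m (q - 1)` elements one obtains that all elements are units and congruent
  modulo `p` (`K0`, `step_zero`).
* If all elements are congruent modulo `p ^ j` one uses as index set a family of `p ^ (r - j) - 1`
  disjoint blocks of `m p ^ j` elements, and obtains that they are congruent modulo `p ^ (j + 1)`
  (`K1`, `step_ordinary`).  For `p = 2`, `j = 1` the blocks must be chosen with care
  (`step_exceptional`).
* The case `m = 1` is classical (`main_one`).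
-/

set_option autoImplicit false

namespace Pool.Agent.Results.MP_e23efd_co.ExtremalSequences

open Polynomial Finset

section lam

/-- a linear functional on the polynomials over the field with `p` elements, which maps the power
`(1 + X) ^ n` to the indicator of `p ^ R ∣ n` -/
noncomputable def lam (p R : ℕ) : (ZMod p)[X] →ₗ[ZMod p] ZMod p :=
  (Polynomial.lcoeff (ZMod p) (p ^ R - 1)) ∘ₗ
    (LinearMap.mulLeft (ZMod p) ((1 + X) ^ (p ^ R - 1) : (ZMod p)[X]))

variable {p R : ℕ}

lemma lam_apply (f : (ZMod p)[X]) :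
    lam p R f = ((1 + X) ^ (p ^ R - 1) * f).coeff (p ^ R - 1) := by
  simp [lam, Polynomial.lcoeff_apply]

lemma lam_X_pow_mul_of_le [Fact p.Prime] {k : ℕ} (hk : p ^ R ≤ k) (g : (ZMod p)[X]) :
    lam p R (X ^ k * g) = 0 := by
  have hp : 0 < p ^ R := Nat.pos_of_ne_zero (pow_ne_zero _ (Fact.out : p.Prime).ne_zero)
  rw [lam_apply, mul_left_comm, coeff_X_pow_mul', if_neg (by omega)]

lemma lam_X_pow_mul_eq (g : (ZMod p)[X]) :
    lam p R (X ^ (p ^ R - 1) * g) = g.coeff 0 := by
  rw [lam_apply, mul_left_comm, coeff_X_pow_mul', if_pos le_rfl, Nat.sub_self, mul_coeff_zero]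
  simp [coeff_zero_eq_eval_zero]

lemma lam_of_dvd [Fact p.Prime] {k : ℕ} (hk : p ^ R ≤ k) {f : (ZMod p)[X]} (hf : X ^ k ∣ f) :
    lam p R f = 0 := by
  obtain ⟨g, rfl⟩ := hf
  exact lam_X_pow_mul_of_le hk g

lemma one_add_X_pow_mul [Fact p.Prime] (a : ℕ) :
    ∃ w : (ZMod p)[X], ((1 : (ZMod p)[X]) + X) ^ (p ^ R * a) = 1 + X ^ (p ^ R) * w := by
  have h1 : ((1 : (ZMod p)[X]) + X) ^ (p ^ R) = 1 + X ^ (p ^ R) := by
    rw [add_pow_char_pow, one_pow]
  have h2 : (X : (ZMod p)[X]) ^ (p ^ R) ∣ (1 + X ^ (p ^ R)) ^ a - 1 ^ a := by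
    have := sub_dvd_pow_sub_pow (1 + X ^ (p ^ R) : (ZMod p)[X]) 1 a
    simpa using this
  obtain ⟨w, hw⟩ := h2
  refine ⟨w, ?_⟩
  rw [pow_mul, h1, ← hw]
  simp

lemma lam_one_add_X_pow [Fact p.Prime] (n : ℕ) :
    lam p R ((1 + X) ^ n) = if p ^ R ∣ n then 1 else 0 := by
  have hq : 0 < p ^ R := Nat.pos_of_ne_zero (pow_ne_zero _ (Fact.out : p.Prime).ne_zero)
  rw [lam_apply, ← pow_add]
  split_ifs with h
  · obtain ⟨a, rfl⟩ := h
    obtain ⟨w, hw⟩ := one_add_X_pow_mul (p := p) (R := R) a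
    rw [pow_add, hw, mul_add, coeff_add, mul_one, mul_left_comm, coeff_X_pow_mul',
      if_neg (by omega), add_zero, coeff_one_add_X_pow]
    simp
  · have h0 : 0 < n % p ^ R := Nat.pos_of_ne_zero fun h' => h (Nat.dvd_of_mod_eq_zero h')
    have h1 : n % p ^ R < p ^ R := Nat.mod_lt _ hq
    have h2 : p ^ R - 1 + n = p ^ R * (n / p ^ R + 1) + (n % p ^ R - 1) := by
      have := Nat.div_add_mod n (p ^ R)
      have h3 : p ^ R * (n / p ^ R + 1) = p ^ R * (n / p ^ R) + p ^ R := by ring
      omega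
    obtain ⟨w, hw⟩ := one_add_X_pow_mul (p := p) (R := R) (n / p ^ R + 1)
    rw [h2, pow_add, hw, add_mul, coeff_add, one_mul, mul_assoc, coeff_X_pow_mul',
      if_neg (by omega), add_zero, coeff_one_add_X_pow, Nat.choose_eq_zero_of_lt (by omega)]
    simp

end lam

section cover

variable {κ : Type*} [Fintype κ] [DecidableEq κ]

lemma sum_superset {A : Type*} [CommRing A] (U : Finset κ) :
    ∑ Y : Finset κ, (if U ⊆ Y then (-1 : A) ^ Y.card else 0)
      = if U = univ then (-1 : A) ^ Fintype.card κ else 0 := by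
  have h1 : ∑ Y : Finset κ, (if U ⊆ Y then (-1 : A) ^ Y.card else 0)
      = ∑ Z ∈ (Uᶜ).powerset, (-1 : A) ^ Fintype.card κ * (-1 : A) ^ Z.card := by
    rw [← Finset.sum_filter]
    refine Finset.sum_bij' (fun Y _ => Yᶜ) (fun Z _ => Zᶜ) ?_ ?_ ?_ ?_ ?_
    · intro Y hY
      simp only [mem_filter, mem_univ, true_and] at hY
      simp only [mem_powerset]
      exact Finset.compl_subset_compl.mpr hY
    · intro Z hZ
      simp only [mem_powerset] at hZ
      simp only [mem_filter, mem_univ, true_and]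
      exact Finset.subset_compl_comm.mp hZ
    · intro Y _
      simp
    · intro Z _
      simp
    · intro Y _
      have hc := Finset.card_compl Y
      have hle := Finset.card_le_univ Y
      rw [← pow_add, hc]
      have h2 : Fintype.card κ + (Fintype.card κ - Y.card) = Y.card + 2 * (Fintype.card κ - Y.card) := by
        omega
      rw [h2, pow_add, pow_mul]
      simp
  rw [h1, ← Finset.mul_sum]
  have h2 : ∑ Z ∈ (Uᶜ).powerset, (-1 : A) ^ Z.card = if Uᶜ = ∅ then 1 else 0 := by
    have := Finset.sum_powerset_neg_one_pow_card (x := Uᶜ)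
    have h3 := congrArg (Int.cast : ℤ → A) this
    push_cast at h3
    rw [h3]
  rw [h2]
  by_cases hU : U = univ
  · simp [hU]
  · rw [if_neg hU, if_neg, mul_zero]
    rwa [Finset.compl_eq_empty_iff]

lemma cover_sum {A : Type*} [CommRing A] (c : Finset κ → A) :
    ∑ Y : Finset κ, (-1 : A) ^ Y.card * ∏ W ∈ Y.powerset, (1 + c W)
      = (-1 : A) ^ Fintype.card κ *
        ∑ 𝓘 : Finset (Finset κ) with 𝓘.sup id = univ, ∏ W ∈ 𝓘, c W := by
  have h1 : ∀ Y : Finset κ, (-1 : A) ^ Y.card * ∏ W ∈ Y.powerset, (1 + c W)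
      = ∑ 𝓘 : Finset (Finset κ), (if 𝓘.sup id ⊆ Y then (-1 : A) ^ Y.card else 0) *
          ∏ W ∈ 𝓘, c W := by
    intro Y
    rw [Finset.prod_one_add, Finset.mul_sum]
    simp only [ite_mul, zero_mul]
    rw [← Finset.sum_filter]
    refine Finset.sum_congr ?_ fun _ _ => rfl
    ext 𝓘
    simp only [mem_powerset, mem_filter, mem_univ, true_and]
    rw [Finset.sup_le_iff]
    constructor
    · intro h W hW
      exact Finset.mem_powerset.mp (h hW)
    · intro h W hW
      exact Finset.mem_powerset.mpr (h W hW)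
  rw [Finset.sum_congr rfl fun Y _ => h1 Y, Finset.sum_comm]
  simp only [← Finset.sum_mul]
  simp only [sum_superset]
  rw [Finset.sum_filter, Finset.mul_sum]
  refine Finset.sum_congr rfl fun 𝓘 _ => ?_
  split_ifs <;> simp

end cover


section main_identity

variable {κ : Type*} [Fintype κ] [DecidableEq κ]

theorem main_identity (p R : ℕ) [Fact p.Prime] (hR : 1 ≤ R) (φ : Finset κ → ℤ) :
    ∃ c : Finset κ → (ZMod p)[X],
      (∀ W, ∃ h : (ZMod p)[X], c W = X * h ∧ h.coeff 0 = (φ W : ZMod p)) ∧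
      (∀ (W : Finset κ) (v : ℕ), ((p : ℤ) ^ v) ∣ φ W → (X : (ZMod p)[X]) ^ (p ^ v) ∣ c W) ∧
      (∀ W, φ W = 0 → c W = 0) ∧
      ∑ Y : Finset κ, (-1 : ZMod p) ^ Y.card *
          (if (p : ℤ) ^ R ∣ ∑ W ∈ Y.powerset, φ W then 1 else 0)
        = (-1 : ZMod p) ^ Fintype.card κ *
            ∑ 𝓘 : Finset (Finset κ) with 𝓘.sup id = univ, lam p R (∏ W ∈ 𝓘, c W) := by
  have hp : p.Prime := Fact.out
  have hq : (0 : ℤ) < (p : ℤ) ^ R := by
    have : (0 : ℤ) < p := by exact_mod_cast hp.pos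
    positivity
  set ν : Finset κ → ℕ := fun W => (φ W % (p : ℤ) ^ R).toNat with hν
  have hν1 : ∀ W, (ν W : ℤ) = φ W % (p : ℤ) ^ R := fun W =>
    Int.toNat_of_nonneg (Int.emod_nonneg _ hq.ne')
  have hν2 : ∀ W, (p : ℤ) ^ R ∣ φ W - ν W := by
    intro W
    rw [hν1]
    exact Int.dvd_self_sub_emod
  refine ⟨fun W => (1 + X) ^ ν W - 1, ?_, ?_, ?_, ?_⟩
  · intro W
    refine ⟨∑ i ∈ range (ν W), (1 + X) ^ i, ?_, ?_⟩
    · have := mul_geom_sum (1 + X : (ZMod p)[X]) (ν W)
      simp only
      rw [← this]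
      ring
    · rw [Polynomial.finsetSum_coeff]
      have h1 : ∀ i ∈ range (ν W), ((1 + X : (ZMod p)[X]) ^ i).coeff 0 = 1 := by
        intro i _
        simp [coeff_zero_eq_eval_zero]
      rw [Finset.sum_congr rfl h1]
      simp only [sum_const, card_range, nsmul_eq_mul, mul_one]
      have h2 : (p : ℤ) ∣ φ W - ν W := (dvd_pow_self (p : ℤ) (by omega)).trans (hν2 W)
      have h3 := (ZMod.intCast_zmod_eq_zero_iff_dvd (φ W - ν W) p).mpr h2
      push_cast at h3
      exact (sub_eq_zero.mp h3).symm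
  · intro W v hv
    by_cases hvR : v ≤ R
    · have h1 : ((p : ℤ) ^ v) ∣ ν W := by
        have h2 : (p : ℤ) ^ v ∣ φ W - ν W := (pow_dvd_pow (p : ℤ) hvR).trans (hν2 W)
        have := dvd_sub hv h2
        simpa using this
      have h2 : p ^ v ∣ ν W := by exact_mod_cast h1
      obtain ⟨a, ha⟩ := h2
      obtain ⟨w, hw⟩ := one_add_X_pow_mul (p := p) (R := v) a
      refine ⟨w, ?_⟩
      simp only
      rw [ha, hw]
      ring
    · have h1 : (p : ℤ) ^ R ∣ φ W := (pow_dvd_pow (p : ℤ) (by omega)).trans hv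
      have h2 : ν W = 0 := by
        have : (ν W : ℤ) = 0 := by rw [hν1]; exact Int.emod_eq_zero_of_dvd h1
        exact_mod_cast this
      simp only [h2, pow_zero, sub_self]
      exact dvd_zero _
  · intro W hW
    have h2 : ν W = 0 := by
      have : (ν W : ℤ) = 0 := by rw [hν1, hW]; simp
      exact_mod_cast this
    simp [h2]
  · have h1 := congrArg (lam p R)
      (cover_sum (κ := κ) (fun W => ((1 : (ZMod p)[X]) + X) ^ ν W - 1))
    have h2 : ∀ k : ℕ, ((-1 : (ZMod p)[X]) ^ k) = C ((-1 : ZMod p) ^ k) := by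
      intro k
      simp
    rw [map_sum, h2, ← smul_eq_C_mul, map_smul, map_sum, smul_eq_mul] at h1
    rw [← h1]
    refine Finset.sum_congr rfl fun Y _ => ?_
    rw [h2, ← smul_eq_C_mul, map_smul, smul_eq_mul]
    congr 1
    simp only [add_sub_cancel]
    rw [Finset.prod_pow_eq_pow_sum, lam_one_add_X_pow]
    have h3 : (p : ℤ) ^ R ∣ (∑ W ∈ Y.powerset, φ W) - ((∑ W ∈ Y.powerset, ν W : ℕ) : ℤ) := by
      push_cast
      rw [← Finset.sum_sub_distrib]
      exact Finset.dvd_sum fun W _ => hν2 W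
    have h4 : (p : ℤ) ^ R ∣ (∑ W ∈ Y.powerset, φ W) ↔ p ^ R ∣ ∑ W ∈ Y.powerset, ν W := by
      rw [← Int.natCast_dvd_natCast]
      push_cast
      push_cast at h3
      constructor
      · intro h
        have := dvd_sub h h3
        simpa using this
      · intro h
        have := dvd_add h h3
        simpa using this
    simp only [h4]

end main_identity

section blocks

variable {κ : Type*} [Fintype κ] [DecidableEq κ]

theorem K1 (p R j m : ℕ) [Fact p.Prime] (hR : 1 ≤ R) (hm : 1 ≤ m)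
    (hκ : Fintype.card κ = p ^ R - 1) (P : κ → ℤ[X])
    (ha : ∀ Y : Finset κ, Y.Nonempty → ¬ ((p : ℤ) ^ (j + R)) ∣ (∏ k ∈ Y, P k).coeff m)
    (hb : ∀ W : Finset κ, W.Nonempty → ((p : ℤ) ^ j) ∣ (∏ k ∈ W, (P k - 1)).coeff m)
    (hc : ∀ W : Finset κ, 2 ≤ W.card →
      ∃ v, ((p : ℤ) ^ (j + v)) ∣ (∏ k ∈ W, (P k - 1)).coeff m ∧ W.card < p ^ v) :
    ∏ k : κ, (((P k - 1).coeff m / (p : ℤ) ^ j : ℤ) : ZMod p) = (-1) ^ Fintype.card κ := by
  have hp : p.Prime := Fact.out
  have hp0 : (p : ℤ) ≠ 0 := by exact_mod_cast hp.ne_zero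
  have hpj : ((p : ℤ) ^ j) ≠ 0 := pow_ne_zero _ hp0
  set φ : Finset κ → ℤ := fun W => (∏ k ∈ W, (P k - 1)).coeff m / (p : ℤ) ^ j with hφ
  have hφ0 : φ ∅ = 0 := by
    simp only [hφ, prod_empty]
    rw [coeff_one, if_neg (by omega)]
    simp
  have hall : ∀ W : Finset κ, ((p : ℤ) ^ j) ∣ (∏ k ∈ W, (P k - 1)).coeff m := by
    intro W
    rcases W.eq_empty_or_nonempty with rfl | hW
    · simp only [prod_empty]
      rw [coeff_one, if_neg (by omega)]
      exact dvd_zero _
    · exact hb W hW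
  have hφmul : ∀ W, (p : ℤ) ^ j * φ W = (∏ k ∈ W, (P k - 1)).coeff m := fun W =>
    Int.mul_ediv_cancel' (hall W)
  have hsum : ∀ Y : Finset κ, (p : ℤ) ^ j * ∑ W ∈ Y.powerset, φ W = (∏ k ∈ Y, P k).coeff m := by
    intro Y
    rw [Finset.mul_sum, Finset.sum_congr rfl fun W _ => hφmul W, ← Polynomial.finsetSum_coeff,
      ← Finset.prod_one_add]
    simp
  obtain ⟨c, hc1, hc2, hc3, hc4⟩ := main_identity p R hR φ
  have hE : ∑ Y : Finset κ, (-1 : ZMod p) ^ Y.card *
          (if (p : ℤ) ^ R ∣ ∑ W ∈ Y.powerset, φ W then 1 else 0) = 1 := by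
    rw [Finset.sum_eq_single ∅]
    · simp [hφ0]
    · intro Y _ hY
      rw [if_neg, mul_zero]
      intro hd
      apply ha Y (Finset.nonempty_iff_ne_empty.mpr hY)
      rw [← hsum Y, pow_add]
      exact mul_dvd_mul_left _ hd
    · intro h
      exact absurd (mem_univ _) h
  -- the singletons
  set 𝓢 : Finset (Finset κ) := univ.image fun k : κ => {k} with h𝓢
  have hcov : ∑ 𝓘 : Finset (Finset κ) with 𝓘.sup id = univ, lam p R (∏ W ∈ 𝓘, c W)
      = ∏ k : κ, ((φ {k} : ℤ) : ZMod p) := by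
    rw [Finset.sum_eq_single_of_mem 𝓢]
    · have h1 : ∏ W ∈ 𝓢, c W = ∏ k : κ, c {k} := by
        rw [h𝓢, Finset.prod_image]
        intro x _ y _ hxy
        exact Finset.singleton_injective hxy
      rw [h1]
      choose h hh1 hh2 using hc1
      rw [Finset.prod_congr rfl fun k _ => hh1 {k}, Finset.prod_mul_distrib, Finset.prod_const,
        Finset.card_univ, hκ, lam_X_pow_mul_eq, coeff_zero_eq_eval_zero, eval_prod]
      refine Finset.prod_congr rfl fun k _ => ?_
      rw [← coeff_zero_eq_eval_zero, hh2]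
    · simp only [mem_filter, mem_univ, true_and]
      rw [Finset.eq_univ_iff_forall]
      intro k
      rw [Finset.mem_sup]
      exact ⟨{k}, by simp [h𝓢], by simp⟩
    · intro 𝓘 h𝓘 hne
      simp only [mem_filter, mem_univ, true_and] at h𝓘
      by_cases h0 : ∅ ∈ 𝓘
      · rw [Finset.prod_eq_zero h0 (hc3 ∅ hφ0), map_zero]
      · -- weights
        have hw : ∀ W : Finset κ, ∃ w : ℕ, (X : (ZMod p)[X]) ^ w ∣ c W ∧
            (W.Nonempty → W.card ≤ w) ∧ (2 ≤ W.card → W.card < w) := by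
          intro W
          by_cases h2 : 2 ≤ W.card
          · obtain ⟨v, hv1, hv2⟩ := hc W h2
            refine ⟨p ^ v, hc2 W v ?_, fun _ => hv2.le, fun _ => hv2⟩
            have := hφmul W
            rw [← this, pow_add] at hv1
            exact (mul_dvd_mul_iff_left hpj).mp hv1
          · obtain ⟨h, hh, _⟩ := hc1 W
            refine ⟨1, ?_, fun _ => by omega, fun h3 => absurd h3 h2⟩
            rw [pow_one, hh]
            exact Dvd.intro _ rfl
        choose w hw1 hw2 hw3 using hw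
        have hdvd : (X : (ZMod p)[X]) ^ (∑ W ∈ 𝓘, w W) ∣ ∏ W ∈ 𝓘, c W := by
          rw [← Finset.prod_pow_eq_pow_sum]
          exact Finset.prod_dvd_prod_of_dvd _ _ fun W _ => hw1 W
        refine lam_of_dvd ?_ hdvd
        have hbig : ∃ W ∈ 𝓘, 2 ≤ W.card := by
          by_contra hcon
          push Not at hcon
          apply hne
          have hsub : 𝓘 ⊆ 𝓢 := by
            intro W hW
            have h1 := hcon W hW
            have h2 : W.Nonempty := by
              rw [Finset.nonempty_iff_ne_empty]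
              rintro rfl
              exact h0 hW
            have h3 : W.card = 1 := by
              have := h2.card_pos
              omega
            obtain ⟨k, rfl⟩ := Finset.card_eq_one.mp h3
            simp [h𝓢]
          refine Finset.Subset.antisymm hsub ?_
          intro W hW
          simp only [h𝓢, mem_image, mem_univ, true_and] at hW
          obtain ⟨k, rfl⟩ := hW
          have hk : k ∈ 𝓘.sup id := by rw [h𝓘]; exact mem_univ _
          rw [Finset.mem_sup] at hk
          obtain ⟨V, hV, hkV⟩ := hk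
          have hV' := hsub hV
          simp only [h𝓢, mem_image, mem_univ, true_and] at hV'
          obtain ⟨k', rfl⟩ := hV'
          simp only [id, mem_singleton] at hkV
          rw [hkV]
          exact hV
        obtain ⟨W0, hW0, hW0c⟩ := hbig
        have hlt : ∑ W ∈ 𝓘, W.card < ∑ W ∈ 𝓘, w W := by
          refine Finset.sum_lt_sum ?_ ⟨W0, hW0, hw3 W0 hW0c⟩
          intro W hW
          apply hw2
          rw [Finset.nonempty_iff_ne_empty]
          rintro rfl
          exact h0 hW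
        have hge : Fintype.card κ ≤ ∑ W ∈ 𝓘, W.card := by
          rw [← Finset.card_univ, ← h𝓘, Finset.sup_eq_biUnion]
          exact Finset.card_biUnion_le
        omega
  rw [hE, hcov] at hc4
  have h5 : ∏ k : κ, ((φ {k} : ℤ) : ZMod p) = (-1) ^ Fintype.card κ := by
    have h6 : ((-1 : ZMod p) ^ Fintype.card κ) * (-1 : ZMod p) ^ Fintype.card κ = 1 := by
      rw [← mul_pow]; simp
    calc ∏ k : κ, ((φ {k} : ℤ) : ZMod p)
        = ((-1 : ZMod p) ^ Fintype.card κ * (-1 : ZMod p) ^ Fintype.card κ) *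
            ∏ k : κ, ((φ {k} : ℤ) : ZMod p) := by rw [h6, one_mul]
      _ = (-1) ^ Fintype.card κ := by rw [mul_assoc, ← hc4, mul_one]
  rw [← h5]
  refine Finset.prod_congr rfl fun k _ => ?_
  simp [hφ]

end blocks


section start

variable {κ : Type*} [Fintype κ] [DecidableEq κ]

/-- the generating polynomial of the elementary symmetric functions -/
noncomputable def gen {ι : Type*} (b : ι → ℤ) (Y : Finset ι) : ℤ[X] := ∏ i ∈ Y, (1 + C (b i) * X)

lemma coeff_prod_C_mul_X {ι : Type*} (a : ι → ℤ) (W : Finset ι) (m : ℕ) :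
    (∏ i ∈ W, (C (a i) * X)).coeff m = if W.card = m then ∏ i ∈ W, a i else 0 := by
  rw [Finset.prod_mul_distrib, Finset.prod_const, ← map_prod, coeff_C_mul, coeff_X_pow]
  split_ifs with h1 h2 h2
  · simp
  · exact absurd h1.symm h2
  · exact absurd h2.symm h1
  · simp

lemma gen_coeff {ι : Type*} [DecidableEq ι] (a : ι → ℤ) (Y : Finset ι) (m : ℕ) :
    (gen a Y).coeff m = ∑ W ∈ Y.powerset, if W.card = m then ∏ i ∈ W, a i else 0 := by
  rw [gen, Finset.prod_one_add, Polynomial.finsetSum_coeff]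
  exact Finset.sum_congr rfl fun W _ => coeff_prod_C_mul_X a W m

lemma choose_pred (p s k : ℕ) [Fact p.Prime] (hk : 1 ≤ k) :
    ((Nat.choose (p ^ s * k - 1) (p ^ s - 1) : ℕ) : ZMod p) = 1 := by
  have hq : 0 < p ^ s := Nat.pos_of_ne_zero (pow_ne_zero _ (Fact.out : p.Prime).ne_zero)
  obtain ⟨k, rfl⟩ : ∃ k', k = k' + 1 := ⟨k - 1, by omega⟩
  have h1 : p ^ s * (k + 1) - 1 = p ^ s * k + (p ^ s - 1) := by
    rw [mul_add, mul_one]; omega
  obtain ⟨w, hw⟩ := one_add_X_pow_mul (p := p) (R := s) k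
  have h2 : ((1 + X : (ZMod p)[X]) ^ (p ^ s * (k + 1) - 1)).coeff (p ^ s - 1) = 1 := by
    rw [h1, pow_add, hw, add_mul, coeff_add, one_mul, mul_assoc, coeff_X_pow_mul',
      if_neg (by omega), add_zero, coeff_one_add_X_pow]
    simp
  rw [coeff_one_add_X_pow] at h2
  exact h2

theorem K0 (p r s : ℕ) [Fact p.Prime] (hr : 1 ≤ r)
    (hκ : Fintype.card κ = p ^ s * (p ^ r - 1)) :
    ∃ K c : ZMod p, c ≠ 0 ∧ ∀ a : κ → ℤ,
      (∀ Y : Finset κ, p ^ s ≤ Y.card → ¬ ((p : ℤ) ^ r) ∣ (gen a Y).coeff (p ^ s)) →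
      K * ∏ i : κ, (a i : ZMod p) = c := by
  have hp : p.Prime := Fact.out
  have hm : 0 < p ^ s := Nat.pos_of_ne_zero (pow_ne_zero _ hp.ne_zero)
  have hq2 : 2 ≤ p ^ r := by
    calc 2 ≤ p := hp.two_le
      _ = p ^ 1 := (pow_one p).symm
      _ ≤ p ^ r := Nat.pow_le_pow_right hp.pos hr
  set m := p ^ s with hmdef
  refine ⟨(-1) ^ Fintype.card κ * ∑ 𝓘 : Finset (Finset κ) with 𝓘.sup id = univ,
      if (∀ W ∈ 𝓘, W.card = m) ∧ 𝓘.card = p ^ r - 1 then 1 else 0,
    ∑ Y : Finset κ, (-1 : ZMod p) ^ Y.card * (if Y.card < m then 1 else 0), ?_, ?_⟩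
  · -- the value of the alternating sum
    have h1 : ∑ Y : Finset κ, (-1 : ZMod p) ^ Y.card * (if Y.card < m then 1 else 0)
        = ((∑ k ∈ range m, ((-1) ^ k * (Fintype.card κ).choose k : ℤ) : ℤ) : ZMod p) := by
      have h2 := Finset.sum_powerset_apply_card
        (fun k => (-1 : ZMod p) ^ k * (if k < m then 1 else 0)) (x := (univ : Finset κ))
      rw [Finset.powerset_univ] at h2
      rw [h2, Finset.card_univ]
      push_cast
      have h3 : ∑ k ∈ range (Fintype.card κ + 1), (Fintype.card κ).choose k •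
          ((-1 : ZMod p) ^ k * (if k < m then 1 else 0))
          = ∑ k ∈ range (Fintype.card κ + 1) with k < m,
            (-1 : ZMod p) ^ k * ((Fintype.card κ).choose k : ZMod p) := by
        rw [Finset.sum_filter]
        refine Finset.sum_congr rfl fun k _ => ?_
        split_ifs <;> simp [mul_comm]
      rw [h3]
      have h4 : m ≤ Fintype.card κ + 1 := by
        have : m * 1 ≤ m * (p ^ r - 1) := Nat.mul_le_mul_left m (by omega)
        omega
      congr 1
      ext k
      simp only [mem_filter, mem_range]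
      omega
    rw [h1]
    obtain ⟨m', hm'⟩ : ∃ m', m = m' + 1 := ⟨m - 1, by omega⟩
    obtain ⟨M', hM'⟩ : ∃ M', Fintype.card κ = M' + 1 := by
      refine ⟨Fintype.card κ - 1, ?_⟩
      have : 1 * 1 ≤ m * (p ^ r - 1) := Nat.mul_le_mul (by omega) (by omega)
      omega
    rw [hM', hm', Int.alternating_sum_range_choose_eq_choose]
    push_cast
    have h5 : ((Nat.choose M' m' : ℕ) : ZMod p) = 1 := by
      have := choose_pred p s (p ^ r - 1) (by omega)
      rw [← hmdef, ← hκ, hM', hm'] at this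
      simpa using this
    rw [h5, mul_one]
    have h6 : ((-1 : ZMod p) ^ m') * (-1) ^ m' = 1 := by
      rw [← mul_pow]; simp
    intro h7
    rw [h7, zero_mul] at h6
    exact zero_ne_one h6
  · intro a ha
    set φ : Finset κ → ℤ := fun W => if W.card = m then ∏ i ∈ W, a i else 0 with hφ
    obtain ⟨c, hc1, hc2, hc3, hc4⟩ := main_identity p r hr φ
    have hE : ∑ Y : Finset κ, (-1 : ZMod p) ^ Y.card *
          (if (p : ℤ) ^ r ∣ ∑ W ∈ Y.powerset, φ W then 1 else 0)
        = ∑ Y : Finset κ, (-1 : ZMod p) ^ Y.card * (if Y.card < m then 1 else 0) := by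
      refine Finset.sum_congr rfl fun Y _ => ?_
      congr 1
      by_cases hY : Y.card < m
      · rw [if_pos hY, if_pos]
        have h0 : ∑ W ∈ Y.powerset, φ W = 0 := by
          refine Finset.sum_eq_zero fun W hW => ?_
          have := Finset.card_le_card (mem_powerset.mp hW)
          simp only [hφ]
          rw [if_neg (by omega)]
        rw [h0]
        exact dvd_zero _
      · rw [if_neg hY, if_neg]
        have := ha Y (by omega)
        rwa [gen_coeff] at this
    rw [← hE, hc4, mul_assoc]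
    congr 1
    rw [Finset.sum_mul]
    refine Finset.sum_congr rfl fun 𝓘 h𝓘 => ?_
    simp only [mem_filter, mem_univ, true_and] at h𝓘
    by_cases hW : ∀ W ∈ 𝓘, W.card = m
    · have hcard : m * (p ^ r - 1) ≤ ∑ W ∈ 𝓘, W.card := by
        rw [← hκ, ← Finset.card_univ, ← h𝓘, Finset.sup_eq_biUnion]
        exact Finset.card_biUnion_le
      have hsum : ∑ W ∈ 𝓘, W.card = m * 𝓘.card := by
        rw [Finset.sum_congr rfl hW]
        simp [mul_comm]
      choose h hh1 hh2 using hc1
      have hprod : ∏ W ∈ 𝓘, c W = X ^ 𝓘.card * ∏ W ∈ 𝓘, h W := by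
        rw [Finset.prod_congr rfl fun W _ => hh1 W, Finset.prod_mul_distrib, Finset.prod_const]
      by_cases hcd : 𝓘.card = p ^ r - 1
      · rw [if_pos ⟨hW, hcd⟩, one_mul, hprod, hcd, lam_X_pow_mul_eq, coeff_zero_eq_eval_zero,
          eval_prod]
        have h1 : ∀ W ∈ 𝓘, eval 0 (h W) = ∏ i ∈ W, (a i : ZMod p) := by
          intro W hW'
          rw [← coeff_zero_eq_eval_zero, hh2]
          simp only [hφ]
          rw [if_pos (hW W hW')]
          push_cast
          rfl
        rw [Finset.prod_congr rfl h1]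
        -- multiplicities are one
        have h2 : ∏ W ∈ 𝓘, ∏ i ∈ W, (a i : ZMod p)
            = ∏ i : κ, ∏ W ∈ 𝓘 with i ∈ W, (a i : ZMod p) := by
          refine Finset.prod_comm' ?_
          intro W i
          simp only [mem_filter, mem_univ, and_true]
        rw [h2]
        have h3 : ∑ W ∈ 𝓘, W.card = ∑ i : κ, (𝓘.filter fun W => i ∈ W).card := by
          simp only [Finset.card_eq_sum_ones]
          refine Finset.sum_comm' ?_
          intro W i
          simp only [mem_filter, mem_univ, and_true]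
        have h4 : ∀ i : κ, 1 ≤ (𝓘.filter fun W => i ∈ W).card := by
          intro i
          have hi : i ∈ 𝓘.sup id := by rw [h𝓘]; exact mem_univ _
          rw [Finset.mem_sup] at hi
          obtain ⟨V, hV, hiV⟩ := hi
          exact Finset.card_pos.mpr ⟨V, by simpa using ⟨hV, hiV⟩⟩
        have h5 : ∑ i : κ, 1 = ∑ i : κ, (𝓘.filter fun W => i ∈ W).card := by
          rw [← h3, hsum, hcd]
          simp [hκ]
        have h6 := (Finset.sum_eq_sum_iff_of_le fun i _ => h4 i).mp h5
        refine Finset.prod_congr rfl fun i _ => ?_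
        rw [Finset.prod_const, ← h6 i (mem_univ i), pow_one]
      · rw [if_neg (fun h' => hcd h'.2), zero_mul, hprod]
        symm
        apply lam_X_pow_mul_of_le
        have h7 : p ^ r - 1 ≤ 𝓘.card := by
          rw [hsum] at hcard
          exact Nat.le_of_mul_le_mul_left hcard hm
        omega
    · rw [if_neg (fun h' => hW h'.1), zero_mul]
      push Not at hW
      obtain ⟨W, hW1, hW2⟩ := hW
      rw [Finset.prod_eq_zero hW1, map_zero]
      apply hc3
      simp only [hφ]
      rw [if_neg hW2]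

end start


section arith

lemma pow_dvd_choose (p a n i : ℕ) (hp : p.Prime) (hi : 1 ≤ i) (hia : i < p ^ (a + 1)) :
    p ^ (n - a) ∣ Nat.choose (p ^ n) i := by
  obtain ⟨e, i', hi', rfl⟩ := Nat.exists_eq_pow_mul_and_not_dvd (n := i) (by omega) p hp.ne_one
  have he : e ≤ a := by
    by_contra hcon
    push Not at hcon
    have h1 : p ^ (a + 1) ≤ p ^ e := Nat.pow_le_pow_right hp.pos hcon
    have h2 : 0 < i' := Nat.pos_of_ne_zero (by rintro rfl; simp at hi)
    have h3 : p ^ e * 1 ≤ p ^ e * i' := Nat.mul_le_mul_left _ h2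
    omega
  by_cases hen : e ≤ n
  · have h1 : p ^ n ∣ p ^ e * i' * Nat.choose (p ^ n) (p ^ e * i') := by
      obtain ⟨k, hk⟩ : ∃ k, p ^ e * i' = k + 1 := ⟨p ^ e * i' - 1, by omega⟩
      obtain ⟨N, hN⟩ : ∃ N, p ^ n = N + 1 :=
        ⟨p ^ n - 1, by have := Nat.pos_of_ne_zero (pow_ne_zero n hp.ne_zero); omega⟩
      rw [hk, hN]
      have := Nat.add_one_mul_choose_eq N k
      exact ⟨Nat.choose N k, by rw [this]; ring⟩
    have h2 : p ^ (n - e) ∣ i' * Nat.choose (p ^ n) (p ^ e * i') := by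
      have h3 : p ^ n = p ^ e * p ^ (n - e) := by rw [← pow_add]; congr 1; omega
      rw [mul_assoc] at h1
      have h4 : p ^ e * p ^ (n - e) ∣ p ^ e * (i' * Nat.choose (p ^ n) (p ^ e * i')) := by
        rw [← h3]; exact h1
      exact Nat.dvd_of_mul_dvd_mul_left (Nat.pos_of_ne_zero (pow_ne_zero e hp.ne_zero)) h4
    have h3 : Nat.Coprime (p ^ (n - e)) i' :=
      Nat.Coprime.pow_left _ ((Nat.Prime.coprime_iff_not_dvd hp).mpr hi')
    exact (pow_dvd_pow p (by omega)).trans (h3.dvd_of_dvd_mul_left h2)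
  · have : n - a = 0 := by omega
    rw [this, pow_zero]
    exact one_dvd _

lemma coeff_one_add_C_mul_X_pow {A : Type*} [CommRing A] (a : A) (n i : ℕ) :
    ((1 + C a * X : A[X]) ^ n).coeff i = (n.choose i : A) * a ^ i := by
  have h1 : (1 + C a * X : A[X]) ^ n = ((1 + X : A[X]) ^ n).comp (C a * X) := by simp
  rw [h1, comp_C_mul_X_coeff, coeff_one_add_X_pow]

lemma gen_congr {ι : Type*} [DecidableEq ι] (M a : ℤ) (b : ι → ℤ) (B : Finset ι)
    (h : ∀ i ∈ B, M ∣ b i - a) : (C M : ℤ[X]) ∣ gen b B - (1 + C a * X) ^ B.card := by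
  induction B using Finset.induction_on with
  | empty => simp [gen]
  | insert x B hx ih =>
    have ih' := ih fun i hi => h i (mem_insert_of_mem hi)
    rw [gen, Finset.prod_insert hx, Finset.card_insert_of_notMem hx]
    have h1 : (1 + C (b x) * X) * (∏ i ∈ B, (1 + C (b i) * X)) - (1 + C a * X) ^ (B.card + 1)
        = (1 + C (b x) * X) * (gen b B - (1 + C a * X) ^ B.card)
          + C (b x - a) * (X * (1 + C a * X) ^ B.card) := by
      rw [gen, C_sub]
      ring
    rw [h1]
    refine dvd_add (dvd_mul_of_dvd_right ih' _) (dvd_mul_of_dvd_left ?_ _)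
    exact (map_dvd C (h x (mem_insert_self x B)))

lemma gen_coeff_congr {ι : Type*} [DecidableEq ι] (M a : ℤ) (b : ι → ℤ) (B : Finset ι)
    (h : ∀ i ∈ B, M ∣ b i - a) (i : ℕ) :
    M ∣ (gen b B).coeff i - (B.card.choose i : ℤ) * a ^ i := by
  have h1 := gen_congr M a b B h
  rw [C_dvd_iff_dvd_coeff] at h1
  have h2 := h1 i
  rwa [coeff_sub, coeff_one_add_C_mul_X_pow] at h2

lemma prod_coeff_dvd {κ : Type*} [DecidableEq κ] (d : ℤ) (m : ℕ) (f : κ → ℤ[X]) (W : Finset κ)
    (h : ∀ k ∈ W, ∀ i ≤ m, d ∣ (f k).coeff i) : ∀ i ≤ m, d ^ W.card ∣ (∏ k ∈ W, f k).coeff i := by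
  induction W using Finset.induction_on with
  | empty => simp
  | insert x W hx ih =>
    have ih' := ih fun k hk => h k (mem_insert_of_mem hk)
    intro i hi
    rw [Finset.prod_insert hx, Finset.card_insert_of_notMem hx, coeff_mul, pow_succ, mul_comm]
    refine Finset.dvd_sum fun y hy => ?_
    have hy' := mem_antidiagonal.mp hy
    exact mul_dvd_mul (h x (mem_insert_self x W) _ (by omega)) (ih' _ (by omega))

lemma lt_pow_of_three {D w : ℕ} (hD : 3 ≤ D) (hw : 2 ≤ w) : w < D ^ (w - 1) := by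
  obtain ⟨w, rfl⟩ : ∃ v, w = v + 2 := ⟨w - 2, by omega⟩
  have h : ∀ v : ℕ, v + 2 < 3 ^ (v + 1) := by
    intro v
    induction v with
    | zero => norm_num
    | succ v ih => rw [pow_succ]; omega
  calc w + 2 < 3 ^ (w + 1) := h w
    _ ≤ D ^ (w + 1) := Nat.pow_le_pow_left hD _
    _ = D ^ (w + 2 - 1) := by congr 1

lemma lt_pow_of_two {w : ℕ} (hw : 3 ≤ w) : w < 2 ^ (w - 1) := by
  obtain ⟨w, rfl⟩ : ∃ v, w = v + 3 := ⟨w - 3, by omega⟩
  have h : ∀ v : ℕ, v + 3 < 2 ^ (v + 2) := by
    intro v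
    induction v with
    | zero => norm_num
    | succ v ih => rw [pow_succ]; omega
  have := h w
  simpa using this

end arith

section select

variable {ι : Type*} [DecidableEq ι]

lemma select (Good : Finset ι → Prop) (c d : ℕ)
    (hG : ∀ F : Finset ι, c + d ≤ F.card → ∃ B ⊆ F, B.card = c ∧ Good B) (n : ℕ) :
    ∀ F : Finset ι, c * n + d ≤ F.card → ∃ B : Fin n → Finset ι,
      (∀ k, B k ⊆ F ∧ (B k).card = c ∧ Good (B k)) ∧
      (∀ k k', k ≠ k' → Disjoint (B k) (B k')) := by
  induction n with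
  | zero =>
    intro F _
    exact ⟨fun _ => ∅, fun k => k.elim0, fun k => k.elim0⟩
  | succ n ih =>
    intro F hF
    have h1 : c + d ≤ F.card := by
      have : c * (n + 1) = c * n + c := by ring
      omega
    obtain ⟨B0, hB0, hc0, hg0⟩ := hG F h1
    have h2 : c * n + d ≤ (F \ B0).card := by
      rw [Finset.card_sdiff_of_subset hB0]
      have : c * (n + 1) = c * n + c := by ring
      omega
    obtain ⟨B, hB1, hB2⟩ := ih (F \ B0) h2
    refine ⟨Fin.cons B0 B, ?_, ?_⟩
    · intro k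
      refine Fin.cases ?_ (fun k => ?_) k
      · exact ⟨hB0, hc0, hg0⟩
      · simp only [Fin.cons_succ]
        exact ⟨(hB1 k).1.trans sdiff_subset, (hB1 k).2⟩
    · have h3 : ∀ k, Disjoint B0 (B k) := fun k =>
        (Finset.disjoint_sdiff).mono_right (hB1 k).1
      intro k k'
      refine Fin.cases ?_ (fun k => ?_) k
      · refine Fin.cases ?_ (fun k' => ?_) k'
        · intro h; exact absurd rfl h
        · intro _
          simpa using h3 k'
      · refine Fin.cases ?_ (fun k' => ?_) k'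
        · intro _
          simpa using (h3 k).symm
        · intro h
          simp only [Fin.cons_succ]
          exact hB2 k k' fun h' => h (by rw [h'])

end select


section steps

variable {ι : Type*} [Fintype ι] [DecidableEq ι]

omit [Fintype ι] [DecidableEq ι] in
lemma gen_sub_one_coeff (b : ι → ℤ) (B : Finset ι) (i : ℕ) :
    (gen b B - 1).coeff i = if i = 0 then 0 else (gen b B).coeff i := by
  rw [coeff_sub, coeff_one]
  split_ifs with h
  · subst h
    have : (gen b B).coeff 0 = 1 := by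
      rw [coeff_zero_eq_eval_zero, gen, eval_prod]
      simp
    simp [this]
  · simp

omit [Fintype ι] in
/-- the low coefficients of the generating polynomial of a block -/
lemma block_coeff (p s j : ℕ) [Fact p.Prime] (b : ι → ℤ) (a : ℤ)
    (hcong : ∀ i, (p : ℤ) ^ j ∣ b i - a) (B : Finset ι) (hB : B.card = p ^ (s + j)) :
    ∀ i ≤ p ^ s, (p : ℤ) ^ j ∣ (gen b B - 1).coeff i := by
  have hp : p.Prime := Fact.out
  intro i hi
  rw [gen_sub_one_coeff]
  split_ifs with h0
  · exact dvd_zero _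
  · have h1 := gen_coeff_congr ((p : ℤ) ^ j) a b B (fun x _ => hcong x) i
    have h2 : p ^ j ∣ Nat.choose (p ^ (s + j)) i := by
      have := pow_dvd_choose p s (s + j) i hp (by omega)
        (lt_of_le_of_lt hi (Nat.pow_lt_pow_right hp.one_lt (by omega)))
      simpa using this
    have h3 : ((p : ℤ) ^ j) ∣ (B.card.choose i : ℤ) * a ^ i := by
      rw [hB]
      exact dvd_mul_of_dvd_left (by exact_mod_cast h2) _
    have := dvd_add h1 h3
    simpa using this

omit [Fintype ι] in
theorem blocks_apply {κ : Type*} [Fintype κ] [DecidableEq κ] (p r s j : ℕ) [Fact p.Prime]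
    (hjr : j < r) (b : ι → ℤ) (a : ℤ)
    (hb : ∀ Y : Finset ι, p ^ s ≤ Y.card → ¬ ((p : ℤ) ^ r) ∣ (gen b Y).coeff (p ^ s))
    (hcong : ∀ i, (p : ℤ) ^ j ∣ b i - a)
    (hκ : Fintype.card κ = p ^ (r - j) - 1) (B : κ → Finset ι)
    (hB : ∀ k, (B k).card = p ^ (s + j))
    (hBd : ∀ k k', k ≠ k' → Disjoint (B k) (B k'))
    (hc : ∀ W : Finset κ, 2 ≤ W.card →
      ∃ v, ((p : ℤ) ^ (j + v)) ∣ (∏ k ∈ W, (gen b (B k) - 1)).coeff (p ^ s) ∧ W.card < p ^ v) :
    ∏ k : κ, (((gen b (B k) - 1).coeff (p ^ s) / (p : ℤ) ^ j : ℤ) : ZMod p)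
      = (-1) ^ Fintype.card κ := by
  have hp : p.Prime := Fact.out
  have hm : 1 ≤ p ^ s := Nat.pos_of_ne_zero (pow_ne_zero _ hp.ne_zero)
  refine K1 p (r - j) j (p ^ s) (by omega) hm hκ (fun k => gen b (B k)) ?_ ?_ hc
  · intro Y hY
    have h1 : ∏ k ∈ Y, gen b (B k) = gen b (Y.biUnion B) := by
      rw [gen, Finset.prod_biUnion]
      · rfl
      · intro k _ k' _ hkk
        exact hBd k k' hkk
    rw [h1, show j + (r - j) = r by omega]
    apply hb
    obtain ⟨k, hk⟩ := hY
    calc p ^ s ≤ p ^ (s + j) := Nat.pow_le_pow_right hp.pos (by omega)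
      _ = (B k).card := (hB k).symm
      _ ≤ (Y.biUnion B).card := Finset.card_le_card (Finset.subset_biUnion_of_mem B hk)
  · intro W hW
    have h1 := prod_coeff_dvd ((p : ℤ) ^ j) (p ^ s) (fun k => gen b (B k) - 1) W
      (fun k _ => block_coeff p s j b a hcong (B k) (hB k)) (p ^ s) le_rfl
    exact (dvd_pow_self _ hW.card_pos.ne').trans h1

/-- the ordinary step -/
theorem step_ordinary (p r s j : ℕ) [Fact p.Prime] (hj : 1 ≤ j) (hjr : j < r)
    (hex : ¬ (p = 2 ∧ j = 1)) (hι : Fintype.card ι = p ^ s * p ^ r - 1) (b : ι → ℤ)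
    (hb : ∀ Y : Finset ι, p ^ s ≤ Y.card → ¬ ((p : ℤ) ^ r) ∣ (gen b Y).coeff (p ^ s))
    (hunit : ∀ i, ¬ (p : ℤ) ∣ b i) (hcong : ∀ u v, (p : ℤ) ^ j ∣ b u - b v) :
    ∀ u v, (p : ℤ) ^ (j + 1) ∣ b u - b v := by
  have hp : p.Prime := Fact.out
  have hp2 := hp.two_le
  intro u v
  by_cases huv : u = v
  · subst huv; simp
  have hm : 1 ≤ p ^ s := Nat.pos_of_ne_zero (pow_ne_zero _ hp.ne_zero)
  -- sizes
  have hs1 : 2 ≤ p ^ (s + j) := by
    calc 2 ≤ p := hp2
      _ = p ^ 1 := (pow_one p).symm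
      _ ≤ p ^ (s + j) := Nat.pow_le_pow_right hp.pos (by omega)
  have hR : 2 ≤ p ^ (r - j) := by
    calc 2 ≤ p := hp2
      _ = p ^ 1 := (pow_one p).symm
      _ ≤ p ^ (r - j) := Nat.pow_le_pow_right hp.pos (by omega)
  have hmul : p ^ s * p ^ r = p ^ (s + j) * p ^ (r - j) := by
    rw [← pow_add, ← pow_add]; congr 1; omega
  obtain ⟨n, hn⟩ : ∃ n, p ^ (r - j) = n + 2 := ⟨p ^ (r - j) - 2, by omega⟩
  have hmul' : p ^ s * p ^ r = p ^ (s + j) * n + 2 * p ^ (s + j) := by
    rw [hmul, hn]; ring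
  -- the set C
  set F0 : Finset ι := (univ.erase u).erase v with hF0
  have hF0c : F0.card = p ^ s * p ^ r - 3 := by
    rw [hF0, Finset.card_erase_of_mem (by simp [Ne.symm huv]), Finset.card_erase_of_mem (mem_univ _),
      Finset.card_univ, hι]
    omega
  obtain ⟨Cs, hCs, hCc⟩ := Finset.exists_subset_card_eq (s := F0) (n := p ^ (s + j) - 1) (by omega)
  have huC : u ∉ Cs := fun h => by
    have := hCs h
    simp [hF0] at this
  have hvC : v ∉ Cs := fun h => by
    have := hCs h
    simp [hF0] at this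
  obtain ⟨B, hB1, hB2⟩ := select (fun _ : Finset ι => True) (p ^ (s + j)) 0
    (fun F hF => by
      obtain ⟨B, hB, hBc⟩ := Finset.exists_subset_card_eq (s := F) (n := p ^ (s + j)) (by omega)
      exact ⟨B, hB, hBc, trivial⟩) n (F0 \ Cs) (by
      rw [Finset.card_sdiff_of_subset hCs]
      omega)
  have hdisj : ∀ w, w ∉ F0 → ∀ k, Disjoint (insert w Cs) (B k) := by
    intro w hw k
    rw [Finset.disjoint_insert_left]
    refine ⟨fun h => hw ((hB1 k).1.trans sdiff_subset h), ?_⟩
    exact (Finset.disjoint_sdiff).mono_right (hB1 k).1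
  have hfam : ∀ w, w ∉ F0 →
      ∏ k : Option (Fin n), (((gen b (k.elim (insert w Cs) B) - 1).coeff (p ^ s) / (p : ℤ) ^ j : ℤ) :
        ZMod p) = (-1) ^ Fintype.card (Option (Fin n)) := by
    intro w hw
    have hwC : w ∉ Cs := fun h => hw (hCs h)
    have hcardB : ∀ k : Option (Fin n), (k.elim (insert w Cs) B).card = p ^ (s + j) := by
      intro k
      cases k with
      | none =>
        simp only [Option.elim_none]
        rw [Finset.card_insert_of_notMem hwC, hCc]
        omega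
      | some k => exact (hB1 k).2.1
    refine blocks_apply p r s j hjr b (b w) hb (fun i => hcong i w)
      (by rw [Fintype.card_option, Fintype.card_fin]; omega) _ hcardB ?_ ?_
    · intro k k' hkk
      cases k with
      | none =>
        cases k' with
        | none => exact absurd rfl hkk
        | some k' => exact hdisj w hw k'
      | some k =>
        cases k' with
        | none => exact (hdisj w hw k).symm
        | some k' => exact hB2 k k' fun h => hkk (by rw [h])
    · intro W hW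
      have h1 := prod_coeff_dvd ((p : ℤ) ^ j) (p ^ s)
        (fun k : Option (Fin n) => gen b (k.elim (insert w Cs) B) - 1) W
        (fun k _ => block_coeff p s j b (b w) (fun i => hcong i w) _ (hcardB k)) (p ^ s) le_rfl
      refine ⟨j * (W.card - 1), ?_, ?_⟩
      · have h2 : j + j * (W.card - 1) = j * W.card := by
          obtain ⟨c, hc⟩ : ∃ c, W.card = c + 1 := ⟨W.card - 1, by omega⟩
          rw [hc]; simp; ring
        rw [h2, pow_mul]
        exact h1
      · rw [pow_mul]
        by_cases h3 : 3 ≤ p ^ j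
        · exact lt_pow_of_three h3 hW
        · exfalso
          apply hex
          have hjp : p ^ 1 ≤ p ^ j := Nat.pow_le_pow_right hp.pos hj
          rw [pow_one] at hjp
          have hp2' : p = 2 := by omega
          refine ⟨hp2', ?_⟩
          by_contra hj1
          have : p ^ 2 ≤ p ^ j := Nat.pow_le_pow_right hp.pos (by omega)
          rw [hp2'] at this h3
          omega
  have hu' := hfam u (by simp [hF0])
  have hv' := hfam v (by simp [hF0])
  rw [Fintype.prod_option] at hu' hv'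
  simp only [Option.elim_none, Option.elim_some] at hu' hv'
  set Q : ZMod p := ∏ k : Fin n, (((gen b (B k) - 1).coeff (p ^ s) / (p : ℤ) ^ j : ℤ) : ZMod p)
    with hQ
  have hQ0 : Q ≠ 0 := by
    intro h
    rw [h, mul_zero] at hu'
    have h6 : ((-1 : ZMod p) ^ Fintype.card (Option (Fin n))) ≠ 0 :=
      pow_ne_zero _ (neg_ne_zero.mpr one_ne_zero)
    exact h6 hu'.symm
  have heq := mul_right_cancel₀ hQ0 (hu'.trans hv'.symm)
  -- conclusion
  have hdu := block_coeff p s j b (b u) (fun i => hcong i u) (insert u Cs)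
    (by rw [Finset.card_insert_of_notMem huC, hCc]; omega) (p ^ s) le_rfl
  have hdv := block_coeff p s j b (b u) (fun i => hcong i u) (insert v Cs)
    (by rw [Finset.card_insert_of_notMem hvC, hCc]; omega) (p ^ s) le_rfl
  obtain ⟨x, hx⟩ := hdu
  obtain ⟨y, hy⟩ := hdv
  have hpj : ((p : ℤ) ^ j) ≠ 0 := pow_ne_zero _ (by exact_mod_cast hp.ne_zero)
  rw [hx, hy, Int.mul_ediv_cancel_left _ hpj, Int.mul_ediv_cancel_left _ hpj] at heq
  have hxy : (p : ℤ) ∣ x - y := by
    rw [← ZMod.intCast_zmod_eq_zero_iff_dvd]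
    push_cast
    rw [heq, sub_self]
  have hdiff : (gen b (insert u Cs) - 1).coeff (p ^ s) - (gen b (insert v Cs) - 1).coeff (p ^ s)
      = (b u - b v) * (gen b Cs).coeff (p ^ s - 1) := by
    obtain ⟨m', hm'⟩ : ∃ m', p ^ s = m' + 1 := ⟨p ^ s - 1, by omega⟩
    rw [← coeff_sub]
    have h1 : gen b (insert u Cs) - 1 - (gen b (insert v Cs) - 1)
        = C (b u - b v) * (X * gen b Cs) := by
      rw [gen, Finset.prod_insert huC, gen, Finset.prod_insert hvC, gen, C_sub]
      ring
    rw [h1, coeff_C_mul, hm', coeff_X_mul, Nat.add_sub_cancel]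
  have hdd : (p : ℤ) ^ (j + 1) ∣ (b u - b v) * (gen b Cs).coeff (p ^ s - 1) := by
    rw [← hdiff, hx, hy, ← mul_sub, pow_succ]
    exact mul_dvd_mul_left _ hxy
  have hcop : ¬ (p : ℤ) ∣ (gen b Cs).coeff (p ^ s - 1) := by
    intro h
    have h1 := gen_coeff_congr (p : ℤ) (b u) b Cs
      (fun i _ => (dvd_pow_self (p : ℤ) (by omega : j ≠ 0)).trans (hcong i u)) (p ^ s - 1)
    have h2 : (p : ℤ) ∣ (Cs.card.choose (p ^ s - 1) : ℤ) * b u ^ (p ^ s - 1) := by
      have := dvd_sub h h1
      simpa using this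
    have hpi : Prime (p : ℤ) := Nat.prime_iff_prime_int.mp hp
    rcases hpi.dvd_or_dvd h2 with h3 | h3
    · have h4 := choose_pred p s (p ^ j) (Nat.pos_of_ne_zero (pow_ne_zero _ hp.ne_zero))
      rw [← pow_add, ← hCc] at h4
      have h5 := (ZMod.intCast_zmod_eq_zero_iff_dvd _ p).mpr h3
      push_cast at h5
      rw [h5] at h4
      exact zero_ne_one h4
    · exact hunit u (hpi.dvd_of_dvd_pow h3)
  have hpi : Prime (p : ℤ) := Nat.prime_iff_prime_int.mp hp
  have hcop' : IsCoprime ((p : ℤ) ^ (j + 1)) ((gen b Cs).coeff (p ^ s - 1)) :=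
    IsCoprime.pow_left ((Prime.coprime_iff_not_dvd hpi).mpr hcop)
  exact hcop'.dvd_of_dvd_mul_right hdd

end steps


section exceptional

variable {ι : Type*} [DecidableEq ι]

lemma odd_four {z : ℤ} (hz : ¬ (2 : ℤ) ∣ z) : (z : ZMod 4) = 1 ∨ (z : ZMod 4) = 3 := by
  have h : z % 4 = 1 ∨ z % 4 = 3 := by omega
  rcases h with h | h
  · left
    have h1 : (z : ZMod 4) = ((z % 4 : ℤ) : ZMod 4) := by
      rw [ZMod.intCast_eq_intCast_iff]
      exact (Int.mod_modEq z 4).symm
    rw [h1, h]; rfl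
  · right
    have h1 : (z : ZMod 4) = ((z % 4 : ℤ) : ZMod 4) := by
      rw [ZMod.intCast_eq_intCast_iff]
      exact (Int.mod_modEq z 4).symm
    rw [h1, h]; rfl

omit [DecidableEq ι] in
lemma odd_prod (b : ι → ℤ) (hodd : ∀ i, ¬ (2 : ℤ) ∣ b i) (B : Finset ι) :
    ¬ (2 : ℤ) ∣ ∏ i ∈ B, b i := by
  intro h
  obtain ⟨i, _, hi⟩ := (Prime.dvd_finsetProd_iff Int.prime_two b).mp h
  exact hodd i hi

lemma four_dvd {z : ℤ} (hz : (z : ZMod 4) = 0) : (4 : ℤ) ∣ z :=
  (ZMod.intCast_zmod_eq_zero_iff_dvd z 4).mp hz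

lemma exists_block_one (s : ℕ) (b : ι → ℤ) (hodd : ∀ i, ¬ (2 : ℤ) ∣ b i) (F : Finset ι)
    (hF : 2 ^ (s + 1) + 1 ≤ F.card) :
    ∃ B ⊆ F, B.card = 2 ^ (s + 1) ∧ (4 : ℤ) ∣ (∏ x ∈ B, b x) - 1 := by
  obtain ⟨Cs, hC, hCc⟩ := Finset.exists_subset_card_eq hF
  have hπ := odd_four (odd_prod b hodd Cs)
  have hβ := fun x => odd_four (hodd x)
  by_cases hx : ∃ x ∈ Cs, ((b x : ℤ) : ZMod 4) = ((∏ i ∈ Cs, b i : ℤ) : ZMod 4)
  · obtain ⟨x, hx1, hx2⟩ := hx
    refine ⟨Cs.erase x, (Finset.erase_subset _ _).trans hC, ?_, four_dvd ?_⟩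
    · rw [Finset.card_erase_of_mem hx1, hCc, Nat.add_sub_cancel]
    · have h1 : ((b x : ℤ) : ZMod 4) * ((∏ i ∈ Cs.erase x, b i : ℤ) : ZMod 4) = (b x : ℤ) := by
        rw [← Int.cast_mul, Finset.mul_prod_erase _ _ hx1, hx2]
      have h2 : ∀ y z : ZMod 4, (y = 1 ∨ y = 3) → y * z = y → z - 1 = 0 := by decide
      have := h2 _ _ (hβ x) h1
      push_cast at this ⊢
      exact this
  · exfalso
    push Not at hx
    have h2 : ∀ y z : ZMod 4, (y = 1 ∨ y = 3) → (z = 1 ∨ z = 3) → y ≠ z → y = -z := by decide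
    have h3 : ∀ x ∈ Cs, ((b x : ℤ) : ZMod 4) = -((∏ i ∈ Cs, b i : ℤ) : ZMod 4) := fun x hx' =>
      h2 _ _ (hβ x) hπ (hx x hx')
    have h4 : ((∏ i ∈ Cs, b i : ℤ) : ZMod 4) = (-((∏ i ∈ Cs, b i : ℤ) : ZMod 4)) ^ Cs.card := by
      rw [← Finset.prod_const, ← Finset.prod_congr rfl h3]
      push_cast
      rfl
    set π : ZMod 4 := ((∏ i ∈ Cs, b i : ℤ) : ZMod 4) with hπdef
    have h5 : (-π) ^ Cs.card = -π := by
      rw [hCc, pow_succ 2 s, mul_comm (2 ^ s) 2, pow_succ, pow_mul]
      have h6 : ∀ z : ZMod 4, (z = 1 ∨ z = 3) → (-z) ^ 2 = 1 := by decide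
      rw [h6 π hπ, one_pow, one_mul]
    rw [h5] at h4
    have h7 : ∀ z : ZMod 4, (z = 1 ∨ z = 3) → z = -z → False := by decide
    exact h7 π hπ h4

lemma exists_block_three [Fintype ι] (s : ℕ) (b : ι → ℤ) (hodd : ∀ i, ¬ (2 : ℤ) ∣ b i)
    (hF : 2 ^ (s + 1) + 1 ≤ Fintype.card ι) (u v : ι) (huv : ¬ (4 : ℤ) ∣ b u - b v) :
    ∃ B : Finset ι, B.card = 2 ^ (s + 1) ∧ (4 : ℤ) ∣ (∏ x ∈ B, b x) + 1 := by
  have hne : u ≠ v := by
    rintro rfl
    simp at huv
  have hs2 : 2 ≤ 2 ^ (s + 1) := by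
    calc 2 = 2 ^ 1 := (pow_one 2).symm
      _ ≤ 2 ^ (s + 1) := Nat.pow_le_pow_right (by norm_num) (by omega)
  obtain ⟨Cs, hC, _, hCc⟩ := Finset.exists_subsuperset_card_eq (n := 2 ^ (s + 1) + 1)
    (Finset.subset_univ ({u, v} : Finset ι))
    (by rw [Finset.card_pair hne]; omega) (by rw [Finset.card_univ]; exact hF)
  have hu : u ∈ Cs := hC (by simp)
  have hv : v ∈ Cs := hC (by simp)
  have hπ := odd_four (odd_prod b hodd Cs)
  have hβ := fun x => odd_four (hodd x)
  have hx : ∃ x ∈ Cs, ((b x : ℤ) : ZMod 4) = -((∏ i ∈ Cs, b i : ℤ) : ZMod 4) := by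
    by_contra hcon
    push Not at hcon
    have h2 : ∀ y z : ZMod 4, (y = 1 ∨ y = 3) → (z = 1 ∨ z = 3) → y ≠ -z → y = z := by decide
    have h3 := h2 _ _ (hβ u) hπ (hcon u hu)
    have h4 := h2 _ _ (hβ v) hπ (hcon v hv)
    apply huv
    apply four_dvd
    push_cast
    rw [h3, h4, sub_self]
  obtain ⟨x, hx1, hx2⟩ := hx
  refine ⟨Cs.erase x, ?_, four_dvd ?_⟩
  · rw [Finset.card_erase_of_mem hx1, hCc, Nat.add_sub_cancel]
  · have h1 : ((b x : ℤ) : ZMod 4) * ((∏ i ∈ Cs.erase x, b i : ℤ) : ZMod 4) = -(b x : ℤ) := by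
      rw [← Int.cast_mul, Finset.mul_prod_erase _ _ hx1, hx2, neg_neg]
    have h2 : ∀ y z : ZMod 4, (y = 1 ∨ y = 3) → y * z = -y → z + 1 = 0 := by decide
    have := h2 _ _ (hβ x) h1
    push_cast at this ⊢
    exact this

lemma gen_mod_four (b : ι → ℤ) (hodd : ∀ i, ¬ (2 : ℤ) ∣ b i) (B : Finset ι) :
    (C 4 : ℤ[X]) ∣ gen b B - ((1 + X) ^ B.card + C ((∏ i ∈ B, b i) - 1) * (X * (1 + X) ^ (B.card - 1))) := by
  induction B using Finset.induction_on with
  | empty => simp [gen]
  | insert x B hx ih =>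
    obtain ⟨c, hc⟩ : ∃ c : ℤ, b x = 2 * c + 1 := ⟨(b x) / 2, by have := hodd x; omega⟩
    obtain ⟨d, hd⟩ : ∃ d : ℤ, ∏ i ∈ B, b i = 2 * d + 1 :=
      ⟨(∏ i ∈ B, b i) / 2, by have := odd_prod b hodd B; omega⟩
    have hgen : gen b (insert x B) = (1 + C (b x) * X) * gen b B := by
      rw [gen, Finset.prod_insert hx, gen]
    have hB : B.card = 0 ∨ 1 ≤ B.card := by omega
    have key : gen b (insert x B) - ((1 + X) ^ (insert x B).card
        + C ((∏ i ∈ insert x B, b i) - 1) * (X * (1 + X) ^ ((insert x B).card - 1)))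
        = (1 + C (b x) * X) * (gen b B - ((1 + X) ^ B.card
            + C ((∏ i ∈ B, b i) - 1) * (X * (1 + X) ^ (B.card - 1))))
          + C 4 * (C (c * d) * (X ^ 2 * (1 + X) ^ (B.card - 1)
              - X * (1 + X) ^ (B.card))) := by
      rw [hgen, Finset.card_insert_of_notMem hx, Finset.prod_insert hx, hc, hd]
      rcases hB with h0 | h1
      · have hBe : B = ∅ := Finset.card_eq_zero.mp h0
        subst hBe
        have hd0 : d = 0 := by simpa using hd
        subst hd0
        simp [gen]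
        ring
      · obtain ⟨n, hn⟩ : ∃ n, B.card = n + 1 := ⟨B.card - 1, by omega⟩
        rw [hn]
        simp only [Nat.add_sub_cancel, C_mul, C_add, C_sub, C_1]
        have e2 : (C 2 : ℤ[X]) = 2 := rfl
        have e4 : (C 4 : ℤ[X]) = 4 := rfl
        rw [e2, e4]
        ring
    rw [key]
    exact dvd_add (dvd_mul_of_dvd_right ih _) (Dvd.intro _ rfl)


lemma pair_coeff (m : ℕ) (f g : ℤ[X]) (hf : ∀ i < m, (4 : ℤ) ∣ f.coeff i)
    (hg : ∀ i ≤ m, (2 : ℤ) ∣ g.coeff i) (hg0 : g.coeff 0 = 0) : (8 : ℤ) ∣ (f * g).coeff m := by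
  rw [coeff_mul]
  refine Finset.dvd_sum fun y hy => ?_
  have hy' := mem_antidiagonal.mp hy
  by_cases h : y.1 < m
  · have := mul_dvd_mul (hf _ h) (hg y.2 (by omega))
    simpa using this
  · have h2 : y.2 = 0 := by omega
    rw [h2, hg0, mul_zero]
    exact dvd_zero _

lemma even_type (s : ℕ) (b : ι → ℤ) (hodd : ∀ i, ¬ (2 : ℤ) ∣ b i) (B : Finset ι)
    (hB : B.card = 2 ^ (s + 1)) (hprod : (4 : ℤ) ∣ (∏ x ∈ B, b x) - 1) :
    ∀ i < 2 ^ s, (4 : ℤ) ∣ (gen b B - 1).coeff i := by
  intro i hi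
  rw [gen_sub_one_coeff]
  split_ifs with h0
  · exact dvd_zero _
  · have h1 := gen_mod_four b hodd B
    have h2 : (C 4 : ℤ[X]) ∣ gen b B - (1 + X) ^ B.card := by
      have h3 : (C 4 : ℤ[X]) ∣ C ((∏ i ∈ B, b i) - 1) * (X * (1 + X) ^ (B.card - 1)) :=
        dvd_mul_of_dvd_left (map_dvd C hprod) _
      have := dvd_add h1 h3
      have e : gen b B - (1 + X) ^ B.card = gen b B - ((1 + X) ^ B.card
          + C ((∏ i ∈ B, b i) - 1) * (X * (1 + X) ^ (B.card - 1)))
          + C ((∏ i ∈ B, b i) - 1) * (X * (1 + X) ^ (B.card - 1)) := by ring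
      rw [e]
      exact this
    rw [C_dvd_iff_dvd_coeff] at h2
    have h3 := h2 i
    rw [coeff_sub, coeff_one_add_X_pow, hB] at h3
    -- the binomial coefficient
    obtain ⟨s', rfl⟩ : ∃ s', s = s' + 1 := by
      refine ⟨s - 1, ?_⟩
      rcases Nat.eq_zero_or_pos s with h | h
      · subst h; simp at hi; omega
      · omega
    have h4 : 2 ^ 2 ∣ Nat.choose (2 ^ (s' + 1 + 1)) i := by
      have := pow_dvd_choose 2 s' (s' + 1 + 1) i Nat.prime_two (by omega) hi
      rwa [show s' + 1 + 1 - s' = 2 by omega] at this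
    have h5 : (4 : ℤ) ∣ ((Nat.choose (2 ^ (s' + 1 + 1)) i : ℕ) : ℤ) := by exact_mod_cast h4
    have := dvd_add h3 h5
    simpa using this

lemma odd_type (s : ℕ) (b : ι → ℤ) (hodd : ∀ i, ¬ (2 : ℤ) ∣ b i) (B : Finset ι)
    (hB : B.card = 2 ^ (s + 1)) (hprod : (4 : ℤ) ∣ (∏ x ∈ B, b x) + 1) :
    (4 : ℤ) ∣ (gen b B - 1).coeff (2 ^ s) := by
  have hm : 2 ^ s ≠ 0 := pow_ne_zero _ (by norm_num)
  rw [gen_sub_one_coeff, if_neg hm]
  have h1 := gen_mod_four b hodd B
  rw [C_dvd_iff_dvd_coeff] at h1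
  have h2 := h1 (2 ^ s)
  obtain ⟨m', hm'⟩ : ∃ m', 2 ^ s = m' + 1 := ⟨2 ^ s - 1, by omega⟩
  have hB' : B.card = 2 * m' + 1 + 1 := by rw [hB, pow_succ, hm']; ring
  rw [coeff_sub, coeff_add, coeff_one_add_X_pow, coeff_C_mul, hm', coeff_X_mul,
    coeff_one_add_X_pow, hB', Nat.add_sub_cancel] at h2
  have h3 : Nat.choose (2 * m' + 1 + 1) (m' + 1) = 2 * Nat.choose (2 * m' + 1) m' := by
    have h4 := Nat.add_one_mul_choose_eq (2 * m' + 1) m'
    have h5 : (2 * Nat.choose (2 * m' + 1) m') * (m' + 1)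
        = Nat.choose (2 * m' + 1 + 1) (m' + 1) * (m' + 1) := by
      rw [← h4]; ring
    exact (Nat.eq_of_mul_eq_mul_right (by omega) h5).symm
  rw [h3] at h2
  rw [hm']
  have h6 : (4 : ℤ) ∣ ((∏ x ∈ B, b x) + 1) * (Nat.choose (2 * m' + 1) m' : ℤ) :=
    dvd_mul_of_dvd_left hprod _
  have h7 := dvd_add h2 h6
  have h8 : (gen b B).coeff (m' + 1) = (gen b B).coeff (m' + 1) -
      (((2 * Nat.choose (2 * m' + 1) m' : ℕ) : ℤ) +
        ((∏ x ∈ B, b x) - 1) * (Nat.choose (2 * m' + 1) m' : ℤ)) +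
      ((∏ x ∈ B, b x) + 1) * (Nat.choose (2 * m' + 1) m' : ℤ) := by
    push_cast; ring
  rw [h8]
  exact h7

theorem step_exceptional [Fintype ι] (r s : ℕ) (hr : 1 < r)
    (hι : Fintype.card ι = 2 ^ s * 2 ^ r - 1) (b : ι → ℤ)
    (hb : ∀ Y : Finset ι, 2 ^ s ≤ Y.card → ¬ (((2 : ℕ) : ℤ) ^ r) ∣ (gen b Y).coeff (2 ^ s))
    (hodd : ∀ i, ¬ (2 : ℤ) ∣ b i) : ∀ u v, (4 : ℤ) ∣ b u - b v := by
  have : Fact (Nat.Prime 2) := ⟨Nat.prime_two⟩
  intro u v
  by_contra huv
  have hm : 1 ≤ 2 ^ s := Nat.pos_of_ne_zero (pow_ne_zero _ (by norm_num))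
  have hs1 : 2 ≤ 2 ^ (s + 1) := by rw [pow_succ]; omega
  have hR : 2 ≤ 2 ^ (r - 1) := by
    calc 2 = 2 ^ 1 := (pow_one 2).symm
      _ ≤ 2 ^ (r - 1) := Nat.pow_le_pow_right (by norm_num) (by omega)
  have hmul : 2 ^ s * 2 ^ r = 2 ^ (s + 1) * 2 ^ (r - 1) := by
    rw [← pow_add, ← pow_add]; congr 1; omega
  obtain ⟨n, hn⟩ : ∃ n, 2 ^ (r - 1) = n + 2 := ⟨2 ^ (r - 1) - 2, by omega⟩
  have hmul' : 2 ^ s * 2 ^ r = 2 ^ (s + 1) * n + 2 * 2 ^ (s + 1) := by
    rw [hmul, hn]; ring
  obtain ⟨B0, hB0c, hB0p⟩ := exists_block_three s b hodd (by omega) u v huv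
  obtain ⟨B, hB1, hB2⟩ := select (fun B : Finset ι => (4 : ℤ) ∣ (∏ x ∈ B, b x) - 1) (2 ^ (s + 1)) 1
    (fun F hF => exists_block_one s b hodd F hF) n (univ \ B0) (by
      rw [Finset.card_sdiff_of_subset (Finset.subset_univ _), Finset.card_univ]
      omega)
  have hdisj : ∀ k, Disjoint B0 (B k) := fun k =>
    (Finset.disjoint_sdiff).mono_right (hB1 k).1
  have hcardB : ∀ k : Option (Fin n), (k.elim B0 B).card = 2 ^ (s + 1) := by
    intro k
    cases k with
    | none => exact hB0c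
    | some k => exact (hB1 k).2.1
  have hcong : ∀ i, ((2 : ℕ) : ℤ) ^ 1 ∣ b i - 1 := by
    intro i
    have := hodd i
    push_cast
    omega
  have hblock : ∀ k : Option (Fin n), ∀ i ≤ 2 ^ s, (2 : ℤ) ∣ (gen b (k.elim B0 B) - 1).coeff i := by
    intro k
    have := block_coeff 2 s 1 b 1 hcong _ (hcardB k)
    simpa using this
  have h := blocks_apply 2 r s 1 hr b 1 hb hcong
    (κ := Option (Fin n)) (by rw [Fintype.card_option, Fintype.card_fin]; omega)
    (fun k => k.elim B0 B) hcardB ?_ ?_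
  · rw [Fintype.prod_option] at h
    simp only [Option.elim_none] at h
    have h0 : (((gen b B0 - 1).coeff (2 ^ s) / ((2 : ℕ) : ℤ) ^ 1 : ℤ) : ZMod 2) = 0 := by
      rw [ZMod.intCast_zmod_eq_zero_iff_dvd]
      obtain ⟨x, hx⟩ := odd_type s b hodd B0 hB0c hB0p
      rw [hx]
      push_cast
      omega
    rw [h0, zero_mul] at h
    have h6 : ((-1 : ZMod 2) ^ Fintype.card (Option (Fin n))) ≠ 0 :=
      pow_ne_zero _ (neg_ne_zero.mpr one_ne_zero)
    exact h6 h.symm
  · intro k k' hkk
    cases k with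
    | none =>
      cases k' with
      | none => exact absurd rfl hkk
      | some k' => exact hdisj k'
    | some k =>
      cases k' with
      | none => exact (hdisj k).symm
      | some k' => exact hB2 k k' fun h => hkk (by rw [h])
  · intro W hW
    by_cases hW3 : 3 ≤ W.card
    · have h1 := prod_coeff_dvd ((2 : ℤ)) (2 ^ s)
        (fun k : Option (Fin n) => gen b (k.elim B0 B) - 1) W
        (fun k _ => hblock k) (2 ^ s) le_rfl
      refine ⟨W.card - 1, ?_, lt_pow_of_two hW3⟩
      rw [show 1 + (W.card - 1) = W.card by omega]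
      exact_mod_cast h1
    · refine ⟨2, ?_, by omega⟩
      obtain ⟨k, k', hkk, rfl⟩ := Finset.card_eq_two.mp (show W.card = 2 by omega)
      rw [Finset.prod_pair hkk]
      have hz : ∀ k : Option (Fin n), (gen b (k.elim B0 B) - 1).coeff 0 = 0 := by
        intro k
        rw [gen_sub_one_coeff, if_pos rfl]
      have h8 : (8 : ℤ) ∣ ((gen b (k.elim B0 B) - 1) * (gen b (k'.elim B0 B) - 1)).coeff (2 ^ s) := by
        cases k with
        | some k =>
          exact pair_coeff _ _ _ (even_type s b hodd _ (hB1 k).2.1 (hB1 k).2.2)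
            (hblock k') (hz k')
        | none =>
          cases k' with
          | none => exact absurd rfl hkk
          | some k' =>
            rw [mul_comm]
            exact pair_coeff _ _ _ (even_type s b hodd _ (hB1 k').2.1 (hB1 k').2.2)
              (hblock none) (hz none)
      have e : ((2 : ℕ) : ℤ) ^ (1 + 2) = 8 := by norm_num
      rw [e]
      exact h8

end exceptional


section main

variable {ι : Type*} [Fintype ι] [DecidableEq ι]

/-- the first step: all elements are units and congruent modulo `p` -/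
theorem step_zero (p r s : ℕ) [Fact p.Prime] (hr : 1 ≤ r) (hs : 1 ≤ s)
    (hι : Fintype.card ι = p ^ s * p ^ r - 1) (b : ι → ℤ)
    (hb : ∀ Y : Finset ι, p ^ s ≤ Y.card → ¬ ((p : ℤ) ^ r) ∣ (gen b Y).coeff (p ^ s)) :
    (∀ i, ¬ (p : ℤ) ∣ b i) ∧ ∀ u v, (p : ℤ) ∣ b u - b v := by
  have hp : p.Prime := Fact.out
  have hp2 := hp.two_le
  have hm : 2 ≤ p ^ s := by
    calc 2 ≤ p := hp2
      _ = p ^ 1 := (pow_one p).symm
      _ ≤ p ^ s := Nat.pow_le_pow_right hp.pos hs
  have hq : 2 ≤ p ^ r := by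
    calc 2 ≤ p := hp2
      _ = p ^ 1 := (pow_one p).symm
      _ ≤ p ^ r := Nat.pow_le_pow_right hp.pos hr
  obtain ⟨q', hq'⟩ : ∃ q', p ^ r = q' + 2 := ⟨p ^ r - 2, by omega⟩
  have hM : p ^ s * p ^ r = p ^ s * (p ^ r - 1) + p ^ s := by
    rw [hq', show q' + 2 - 1 = q' + 1 by omega]; ring
  have hM1 : 1 ≤ p ^ s * (p ^ r - 1) := Nat.mul_pos (by omega) (by omega)
  obtain ⟨n, hn⟩ : ∃ n, p ^ s * (p ^ r - 1) = n + 1 := ⟨p ^ s * (p ^ r - 1) - 1, by omega⟩
  obtain ⟨K, c, hc0, hK⟩ := K0 (κ := Option (Fin n)) p r s hr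
    (by rw [Fintype.card_option, Fintype.card_fin]; exact hn.symm)
  have key : ∀ u v : ι, u ≠ v → ((b u : ZMod p) ≠ 0 ∧ (b u : ZMod p) = b v) := by
    intro u v huv
    set F0 : Finset ι := (univ.erase u).erase v with hF0
    have hF0c : F0.card = p ^ s * p ^ r - 3 := by
      rw [hF0, Finset.card_erase_of_mem (by simp [Ne.symm huv]),
        Finset.card_erase_of_mem (mem_univ _), Finset.card_univ, hι]
      omega
    obtain ⟨Cs, hCs, hCc⟩ := Finset.exists_subset_card_eq (s := F0) (n := n) (by omega)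
    set e := Cs.equivFinOfCardEq hCc with he
    have hprod : ∀ w : ι, w ∉ F0 → K * ((b w : ZMod p) * ∏ i : Fin n, (b (e.symm i) : ZMod p)) = c := by
      intro w hw
      have hinj : Function.Injective (fun o : Option (Fin n) => o.elim w (fun i => (e.symm i : ι))) := by
        intro o o' hoo
        cases o with
        | none =>
          cases o' with
          | none => rfl
          | some i =>
            simp only [Option.elim_none, Option.elim_some] at hoo
            exact absurd (hCs (hoo ▸ (e.symm i).2)) hw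
        | some i =>
          cases o' with
          | none =>
            simp only [Option.elim_none, Option.elim_some] at hoo
            exact absurd (hCs (hoo.symm ▸ (e.symm i).2)) hw
          | some i' =>
            simp only [Option.elim_some] at hoo
            have := e.symm.injective (Subtype.ext hoo)
            rw [this]
      have h1 := hK (fun o => b (o.elim w (fun i => (e.symm i : ι)))) (by
        intro Y hY
        have h2 := hb (Y.map ⟨_, hinj⟩) (by rwa [Finset.card_map])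
        rw [gen, Finset.prod_map] at h2
        exact h2)
      rw [Fintype.prod_option] at h1
      exact h1
    have hu := hprod u (by simp [hF0])
    have hv := hprod v (by simp [hF0])
    set Q : ZMod p := ∏ i : Fin n, (b (e.symm i) : ZMod p) with hQ
    have hK0 : K ≠ 0 := by rintro rfl; rw [zero_mul] at hu; exact hc0 hu.symm
    have hQ0 : Q ≠ 0 := by
      intro h; rw [h, mul_zero, mul_zero] at hu; exact hc0 hu.symm
    refine ⟨?_, ?_⟩
    · intro h; rw [h, zero_mul, mul_zero] at hu; exact hc0 hu.symm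
    · exact mul_right_cancel₀ hQ0 (mul_left_cancel₀ hK0 (hu.trans hv.symm))
  refine ⟨?_, ?_⟩
  · intro i hi
    have h4 : 2 * 2 ≤ p ^ s * p ^ r := Nat.mul_le_mul hm hq
    obtain ⟨v, hv⟩ := Fintype.exists_ne_of_one_lt_card (α := ι) (by omega) i
    exact (key i v (Ne.symm hv)).1 ((ZMod.intCast_zmod_eq_zero_iff_dvd _ p).mpr hi)
  · intro u v
    by_cases huv : u = v
    · subst huv; simp
    · rw [← ZMod.intCast_zmod_eq_zero_iff_dvd]
      push_cast
      rw [(key u v huv).2, sub_self]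

theorem main_int (p r s : ℕ) [Fact p.Prime] (hr : 1 ≤ r) (hs : 1 ≤ s)
    (hι : Fintype.card ι = p ^ s * p ^ r - 1) (b : ι → ℤ)
    (hb : ∀ Y : Finset ι, p ^ s ≤ Y.card → ¬ ((p : ℤ) ^ r) ∣ (gen b Y).coeff (p ^ s)) :
    (∀ i, ¬ (p : ℤ) ∣ b i) ∧ ∀ u v, (p : ℤ) ^ r ∣ b u - b v := by
  obtain ⟨h1, h2⟩ := step_zero p r s hr hs hι b hb
  refine ⟨h1, ?_⟩
  have h3 : ∀ j, 1 ≤ j → j ≤ r → ∀ u v, (p : ℤ) ^ j ∣ b u - b v := by
    intro j hj
    induction j, hj using Nat.le_induction with
    | base =>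
      intro _ u v
      rw [pow_one]
      exact h2 u v
    | succ j hj ih =>
      intro hjr
      by_cases hex : p = 2 ∧ j = 1
      · obtain ⟨rfl, rfl⟩ := hex
        have := step_exceptional r s (by omega) hι b hb h1
        simpa using this
      · exact step_ordinary p r s j hj (by omega) hex hι b hb h1 (ih (by omega))
  exact h3 r hr le_rfl

/-- the classical case `m = 1` -/
theorem main_one (n : ℕ) (β : ι → ZMod n) (hι : Fintype.card ι = n - 1) (hn : 2 ≤ n)
    (hb : ∀ Y : Finset ι, Y.Nonempty → ∑ i ∈ Y, β i ≠ 0) : ∀ u v, β u = β v := by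
  have : NeZero n := ⟨by omega⟩
  intro u v
  by_contra huv
  have hne : u ≠ v := by rintro rfl; exact huv rfl
  set Sg : Finset ι → Finset (ZMod n) := fun X => X.powerset.image fun T => ∑ i ∈ T, β i with hSg
  have hmono : ∀ (X : Finset ι) (x : ι), x ∉ X → (Sg X).card + 1 ≤ (Sg (insert x X)).card := by
    intro X x hx
    by_contra hcon
    have hsub : Sg X ⊆ Sg (insert x X) := by
      simp only [hSg]
      exact Finset.image_subset_image (Finset.powerset_mono.mpr (Finset.subset_insert x X))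
    have heq : Sg X = Sg (insert x X) := Finset.eq_of_subset_of_card_le hsub (by omega)
    have hsub2 : (Sg X).image (fun y => y + β x) ⊆ Sg X := by
      intro z hz
      rw [heq]
      simp only [hSg, mem_image, mem_powerset] at hz ⊢
      obtain ⟨y, ⟨T, hT, rfl⟩, rfl⟩ := hz
      refine ⟨insert x T, Finset.insert_subset_insert x hT, ?_⟩
      rw [Finset.sum_insert (fun h => hx (hT h)), add_comm]
    have heq2 : (Sg X).image (fun y => y + β x) = Sg X := by
      refine Finset.eq_of_subset_of_card_le hsub2 ?_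
      rw [Finset.card_image_of_injective _ (add_left_injective (β x))]
    have h0 : (0 : ZMod n) ∈ (Sg X).image (fun y => y + β x) := by
      rw [heq2]
      simp only [hSg, mem_image, mem_powerset]
      exact ⟨∅, Finset.empty_subset _, by simp⟩
    simp only [hSg, mem_image, mem_powerset] at h0
    obtain ⟨y, ⟨T, hT, rfl⟩, hy⟩ := h0
    refine hb (insert x T) (Finset.insert_nonempty x T) ?_
    rw [Finset.sum_insert (fun h => hx (hT h)), add_comm]
    exact hy
  have hfour : 4 ≤ (Sg {u, v}).card := by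
    have hsub : ({0, β u, β v, β u + β v} : Finset (ZMod n)) ⊆ Sg {u, v} := by
      intro z hz
      simp only [mem_insert, mem_singleton] at hz
      simp only [hSg, mem_image, mem_powerset]
      rcases hz with rfl | rfl | rfl | rfl
      · exact ⟨∅, Finset.empty_subset _, by simp⟩
      · exact ⟨{u}, by simp, by simp⟩
      · exact ⟨{v}, by simp, by simp⟩
      · exact ⟨{u, v}, by simp, by rw [Finset.sum_pair hne]⟩
    have hu0 : β u ≠ 0 := by simpa using hb {u} (by simp)
    have hv0 : β v ≠ 0 := by simpa using hb {v} (by simp)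
    have huv0 : β u + β v ≠ 0 := by
      have := hb {u, v} (by simp)
      rwa [Finset.sum_pair hne] at this
    have hcard : ({0, β u, β v, β u + β v} : Finset (ZMod n)).card = 4 := by
      rw [Finset.card_insert_of_notMem, Finset.card_insert_of_notMem, Finset.card_insert_of_notMem,
        Finset.card_singleton]
      · simp only [mem_singleton]
        intro h
        apply hu0
        have := congrArg (fun z => z - β v) h
        simpa using this.symm
      · simp only [mem_insert, mem_singleton, not_or]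
        refine ⟨huv, fun h => hv0 ?_⟩
        have := congrArg (fun z => z - β u) h
        simpa using this.symm
      · simp only [mem_insert, mem_singleton, not_or]
        exact ⟨Ne.symm hu0, Ne.symm hv0, Ne.symm huv0⟩
    calc 4 = _ := hcard.symm
      _ ≤ _ := Finset.card_le_card hsub
  have hgrow : ∀ R : Finset ι, Disjoint {u, v} R → 4 + R.card ≤ (Sg ({u, v} ∪ R)).card := by
    intro R
    induction R using Finset.induction_on with
    | empty => intro _; simpa using hfour
    | insert x R hx ih =>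
      intro hd
      have hd' : Disjoint {u, v} R := hd.mono_right (Finset.subset_insert x R)
      have hx' : x ∉ ({u, v} : Finset ι) ∪ R := by
        rw [Finset.mem_union, not_or]
        exact ⟨fun h => (Finset.disjoint_left.mp hd) h (Finset.mem_insert_self x R), hx⟩
      have h1 := ih hd'
      have h2 := hmono _ x hx'
      rw [Finset.union_insert, Finset.card_insert_of_notMem hx]
      omega
  have h1 := hgrow (univ \ {u, v}) Finset.disjoint_sdiff
  rw [Finset.card_sdiff_of_subset (Finset.subset_univ _), Finset.card_univ,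
    Finset.card_pair hne, hι] at h1
  have h2 : (Sg ({u, v} ∪ univ \ {u, v})).card ≤ n := by
    calc _ ≤ (univ : Finset (ZMod n)).card := Finset.card_le_univ _
      _ = n := by rw [Finset.card_univ, ZMod.card]
  have h3 : ({u, v} : Finset ι).card ≤ Fintype.card ι := Finset.card_le_univ _
  rw [Finset.card_pair hne, hι] at h3
  omega

end main

/-- Let `p` be a prime, `r ≥ 1`, `s ≥ 0`, `q = p ^ r` and `m = p ^ s`.  Every `m`-zero free sequence
`S` over `ℤ/qℤ` (`e_m(T) ≠ 0` for all subsequences `T` of length at least `m`) of the maximal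
length `m q - 1` consists of `m q - 1` copies of one element `a`, which is a unit of `ℤ/qℤ` and
generates the additive group. -/
theorem result (p r s : ℕ) (hp : p.Prime) (hr : 1 ≤ r) (S : Multiset (ZMod (p ^ r)))
    (hS : S.card = p ^ s * p ^ r - 1)
    (hfree : ∀ T ≤ S, p ^ s ≤ T.card → T.esymm (p ^ s) ≠ 0) :
    ∃ a : ZMod (p ^ r), IsUnit a ∧ AddSubgroup.zmultiples a = ⊤ ∧
      S = Multiset.replicate (p ^ s * p ^ r - 1) a := by
  have : Fact p.Prime := ⟨hp⟩
  have hp2 := hp.two_le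
  have hq : 2 ≤ p ^ r := by
    calc 2 ≤ p := hp2
      _ = p ^ 1 := (pow_one p).symm
      _ ≤ p ^ r := Nat.pow_le_pow_right hp.pos hr
  have hm : 1 ≤ p ^ s := Nat.pos_of_ne_zero (pow_ne_zero _ hp.ne_zero)
  have hqne : NeZero (p ^ r) := ⟨by omega⟩
  have hpq : 1 * 2 ≤ p ^ s * p ^ r := Nat.mul_le_mul hm hq
  obtain ⟨β, hβ⟩ : ∃ β : Fin S.card → ZMod (p ^ r),
      (univ : Finset (Fin S.card)).val.map β = S := by
    obtain ⟨l, rfl⟩ := Quot.exists_rep S
    refine ⟨fun i => l.get i, ?_⟩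
    rw [Fin.univ_val_map]
    exact congrArg _ (List.ofFn_get l)
  set b : Fin S.card → ℤ := fun i => ((β i).val : ℤ) with hbdef
  have hbβ : ∀ i, ((b i : ℤ) : ZMod (p ^ r)) = β i := by
    intro i
    simp [hbdef]
  have hι : Fintype.card (Fin S.card) = p ^ s * p ^ r - 1 := by rw [Fintype.card_fin, hS]
  have hcast : ∀ Y : Finset (Fin S.card), (((gen b Y).coeff (p ^ s) : ℤ) : ZMod (p ^ r))
      = (Y.val.map β).esymm (p ^ s) := by
    intro Y
    rw [gen_coeff, Finset.esymm_map_val]
    push_cast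
    rw [Finset.powersetCard_eq_filter, Finset.sum_filter]
    refine Finset.sum_congr rfl fun W _ => ?_
    split_ifs
    · exact Finset.prod_congr rfl fun i _ => hbβ i
    · simp
  have hb : ∀ Y : Finset (Fin S.card), p ^ s ≤ Y.card →
      ¬ ((p : ℤ) ^ r) ∣ (gen b Y).coeff (p ^ s) := by
    intro Y hY hd
    refine hfree (Y.val.map β) ?_ (by simpa using hY) ?_
    · calc Y.val.map β ≤ (univ : Finset (Fin S.card)).val.map β :=
          Multiset.map_le_map (Finset.val_le_iff.mpr (Finset.subset_univ Y))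
        _ = S := hβ
    · rw [← hcast, ZMod.intCast_zmod_eq_zero_iff_dvd]
      exact_mod_cast hd
  have i0 : Fin S.card := ⟨0, by rw [hS]; omega⟩
  -- all elements are equal to a unit
  have hconst : (∀ i, β i = β i0) ∧ IsUnit (β i0) := by
    rcases Nat.eq_zero_or_pos s with h0 | hs
    · subst h0
      have hb1 : ∀ Y : Finset (Fin S.card), Y.Nonempty → ∑ i ∈ Y, β i ≠ 0 := by
        intro Y hY h
        refine hfree (Y.val.map β) ?_ (by simpa using hY.card_pos) ?_
        · calc Y.val.map β ≤ (univ : Finset (Fin S.card)).val.map β :=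
              Multiset.map_le_map (Finset.val_le_iff.mpr (Finset.subset_univ Y))
            _ = S := hβ
        · rw [pow_zero, Finset.esymm_map_val, Finset.powersetCard_one, Finset.sum_map]
          simpa using h
      have hall : ∀ i, β i = β i0 := fun i =>
        main_one (p ^ r) β (by rw [hι, pow_zero, one_mul]) hq hb1 i i0
      refine ⟨hall, ?_⟩
      by_contra hnu
      have h1 : ¬ (β i0).val.Coprime (p ^ r) := by
        intro h
        apply hnu
        have := (ZMod.isUnit_iff_coprime (β i0).val (p ^ r)).mpr h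
        simpa using this
      have h2 : p ∣ (β i0).val := by
        by_contra h
        exact h1 (Nat.Coprime.pow_right _ ((Nat.Prime.coprime_iff_not_dvd hp).mpr h).symm)
      obtain ⟨k, hk⟩ := h2
      obtain ⟨Y, _, hY⟩ := Finset.exists_subset_card_eq (s := (univ : Finset (Fin S.card)))
        (n := p ^ (r - 1)) (by
          rw [Finset.card_univ, hι, pow_zero, one_mul]
          have : p ^ (r - 1) < p ^ r := Nat.pow_lt_pow_right hp.one_lt (by omega)
          omega)
      refine hb1 Y (Finset.card_pos.mp (by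
        rw [hY]; exact Nat.pos_of_ne_zero (pow_ne_zero _ hp.ne_zero))) ?_
      rw [Finset.sum_congr rfl fun i _ => hall i, Finset.sum_const, hY, nsmul_eq_mul]
      have h3 : β i0 = (((p * k : ℕ)) : ZMod (p ^ r)) := by
        rw [← hk]; simp
      rw [h3, ← Nat.cast_mul, ← mul_assoc, ← pow_succ, show r - 1 + 1 = r by omega, Nat.cast_mul]
      simp
    · obtain ⟨h1, h2⟩ := main_int p r s hr hs hι b hb
      refine ⟨?_, ?_⟩
      · intro i
        have h3 := h2 i i0
        have h4 : (((b i - b i0 : ℤ)) : ZMod (p ^ r)) = 0 := by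
          rw [ZMod.intCast_zmod_eq_zero_iff_dvd]
          exact_mod_cast h3
        push_cast at h4
        rw [hbβ, hbβ] at h4
        exact sub_eq_zero.mp h4
      · have h3 : (β i0).val.Coprime (p ^ r) := by
          have h4 : ¬ p ∣ (β i0).val := by
            intro h
            apply h1 i0
            simp only [hbdef]
            exact_mod_cast h
          exact Nat.Coprime.pow_right _ ((Nat.Prime.coprime_iff_not_dvd hp).mpr h4).symm
        have := (ZMod.isUnit_iff_coprime (β i0).val (p ^ r)).mpr h3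
        simpa using this
  obtain ⟨hall, hunit⟩ := hconst
  refine ⟨β i0, hunit, ?_, ?_⟩
  · rw [AddSubgroup.eq_top_iff']
    intro x
    obtain ⟨y, hy⟩ := hunit.exists_left_inv
    rw [AddSubgroup.mem_zmultiples_iff]
    refine ⟨((x * y).val : ℤ), ?_⟩
    have hxy : ((((x * y).val : ℕ) : ℤ) : ZMod (p ^ r)) = x * y := by simp
    rw [zsmul_eq_mul, hxy, mul_assoc, hy, mul_one]
  · rw [← hS]
    conv_lhs => rw [← hβ]
    rw [Multiset.map_congr rfl fun i _ => hall i, Multiset.map_const']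
    simp

end Pool.Agent.Results.MP_e23efd_co.ExtremalSequences
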